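import Pool.Agent.W314.BA.Stm

/-! MP_f2742c_an, part BA-SM: measurability and boundedness of the sheet function. -/

set_option autoImplicit false

open MeasureTheory Set Filter Topology Real
open scoped ENNReal NNReal

namespace Pool.Agent.W410.BA.SM

open Pool.Agent.W314.BA

/-- the walls which can contribute for `g ∈ Bx R` -/
def VR (R : ℝ) : Set (ℤ × ℤ × ℤ) := {v | v ∈ Vset ∧ 3 * (v.1 : ℝ) ^ 2 < R ^ 2}

lemma abs_le_of_sq_le (n N : ℤ) (h : n ^ 2 ≤ N) : -N ≤ n ∧ n ≤ N := by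
  constructor
  · nlinarith [sq_nonneg (n + 1), sq_nonneg n, sq_nonneg (n - 1), Int.le_self_sq n,
      Int.le_self_sq (-n)]
  · nlinarith [Int.le_self_sq n]

lemma VR_finite (R : ℝ) : (VR R).Finite := by
  obtain ⟨N, hN⟩ := exists_nat_ge (R ^ 2 + 1)
  refine (Set.finite_Icc (((-(N : ℤ)), (-(N : ℤ)), (-(N : ℤ))) : ℤ × ℤ × ℤ)
    (((N : ℤ)), ((N : ℤ)), ((N : ℤ)))).subset ?_
  rintro ⟨p, q, r⟩ ⟨⟨h1, h2⟩, h3⟩
  simp only at h1 h3
  have hp : p ^ 2 ≤ (N : ℤ) := by
    have : (p : ℝ) ^ 2 ≤ N := by nlinarith [sq_nonneg (p : ℝ)]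
    exact_mod_cast this
  have hqr : 1 + 3 * p ^ 2 ≤ (N : ℤ) := by
    have : 1 + 3 * (p : ℝ) ^ 2 ≤ N := by linarith
    exact_mod_cast this
  have hq : q ^ 2 ≤ (N : ℤ) := by nlinarith [sq_nonneg r]
  have hr : r ^ 2 ≤ (N : ℤ) := by nlinarith [sq_nonneg q]
  have a1 := abs_le_of_sq_le p N hp
  have a2 := abs_le_of_sq_le q N hq
  have a3 := abs_le_of_sq_le r N hr
  rw [Set.mem_Icc]
  exact ⟨⟨a1.1, a2.1, a3.1⟩, ⟨a1.2, a2.2, a3.2⟩⟩

/-- partial sum -/
noncomputable def ps (R : ℝ) (g : G) : ℤ := ∑ v ∈ (VR_finite R).toFinset, wal g v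

lemma sg_eq (h : WalStmt) (R : ℝ) (g : G) (hg : g ∈ Bx R) : sg g = ps R g := by
  unfold sg ps
  apply finsum_eq_sum_of_support_subset
  intro v hv
  rw [Function.mem_support] at hv
  rw [Set.Finite.coe_toFinset]
  have hV : v ∈ Vset := by
    by_contra hc
    apply hv
    unfold wal
    simp [hc]
  refine ⟨hV, ?_⟩
  by_contra hc
  push Not at hc
  apply hv
  apply h g v hV
  have h1 : hh g ≤ R := hg
  have h2 := one_le_hh g
  nlinarith

lemma wal_meas (v : ℤ × ℤ × ℤ) : Measurable (fun g : G => wal g v) := by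
  have hcont : ∀ i j : Fin 2, Continuous (fun g : G => g.1 i j) := by
    intro i j
    exact (continuous_subtype_val.matrix_elem i j)
  have hLam : Continuous (fun g : G => Lam g v) := by
    unfold Lam
    have h00 := hcont 0 0
    have h01 := hcont 0 1
    have h10 := hcont 1 0
    have h11 := hcont 1 1
    fun_prop
  unfold wal
  apply Measurable.sub _ measurable_const
  apply Measurable.ite _ measurable_const measurable_const
  have : {g : G | v ∈ Vset ∧ 0 < Lam g v} = {g : G | v ∈ Vset} ∩ {g : G | 0 < Lam g v} := rfl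
  rw [this]
  exact (MeasurableSet.const _).inter (measurableSet_lt measurable_const hLam.measurable)

lemma wal_abs (g : G) (v : ℤ × ℤ × ℤ) : |wal g v| ≤ 1 := by
  unfold wal
  split_ifs <;> simp

theorem main (h : WalStmt) : SgMeasStmt := by
  constructor
  · have hps : ∀ R : ℝ, Measurable (ps R) := by
      intro R
      unfold ps
      exact Finset.measurable_fun_sum _ (fun v _ => wal_meas v)
    intro s hs
    have hU : sg ⁻¹' s = ⋃ n : ℕ, (Bx n ∩ (ps n) ⁻¹' s) := by
      ext g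
      simp only [Set.mem_preimage, Set.mem_iUnion, Set.mem_inter_iff]
      constructor
      · intro hg
        obtain ⟨n, hn⟩ := exists_nat_ge (hh g)
        exact ⟨n, hn, by rwa [← sg_eq h n g hn]⟩
      · rintro ⟨n, hn, hg⟩
        rwa [sg_eq h n g hn]
    rw [hU]
    exact MeasurableSet.iUnion fun n => (Bx_meas _).inter (hps _ hs)
  · intro R
    refine ⟨(VR_finite R).toFinset.card, ?_⟩
    intro g hg
    rw [sg_eq h R g hg]
    unfold ps
    refine (Finset.abs_sum_le_sum_abs _ _).trans ?_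
    refine (Finset.sum_le_card_nsmul _ _ 1 (fun v _ => wal_abs g v)).trans ?_
    simp

end Pool.Agent.W410.BA.SM
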